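import Mathlib

/-! Project QC (MP_1fe969_ag): Frobenius is semisimple on the second cohomology of every surface `w^n = f(x, y)`, `deg f ≤ 4`. Definitions.

Proof in words: README.md in this folder. -/

set_option autoImplicit false

namespace Pool.Agent.Helper35.QC.New

open IntermediateField TensorProduct

/-- The elements of `E` which are algebraic over the field generated over `Ω` by `S`. -/
def Acl (Ω : Type) {E : Type} [Field Ω] [Field E] [Algebra Ω E] (S : Set E) : Set E :=
  {a | IsAlgebraic (adjoin Ω S) a}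

/-- The extension `K` of `Ω` is contained in a field `M(θ)`, where `M` is algebraic over a field
generated over `Ω` by fewer than `i` elements. -/
def Uniruled (Ω K : Type) [Field Ω] [Field K] [Algebra Ω K] (i : ℕ) : Prop :=
  ∃ (E : Type) (_ : Field E) (_ : Algebra Ω E) (g : K →ₐ[Ω] E) (S : Finset E) (θ : E),
    S.card < i ∧ ∀ k, g k ∈ adjoin Ω (Acl Ω (S : Set E) ∪ {θ})

/-- `φ` is a relative `q`-Frobenius: `K` is generated over `Ω` by elements `a` with
`φ a = a ^ q`. -/
def IsFrob {Ω K : Type} [Field Ω] [Field K] [Algebra Ω K] (q : ℕ) (φ : K →ₐ[Ω] K) : Prop :=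
  adjoin Ω {a : K | φ a = a ^ q} = ⊤

/-- The part of weight `i` of the cohomology in degree `i` of the generic point of a variety over
`Ω` with function field `K`, that is `H^i(X)` modulo the classes supported on divisors, `X` smooth
projective. -/
structure Theory (p : ℕ) (Ω L : Type) [Field Ω] [Field L] where
  H : ℕ → (K : Type) → [Field K] → [Algebra Ω K] → Type
  [grp : ∀ (i : ℕ) (K : Type) [Field K] [Algebra Ω K], AddCommGroup (H i K)]
  [mdl : ∀ (i : ℕ) (K : Type) [Field K] [Algebra Ω K], Module L (H i K)]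
  /-- functoriality -/
  map : ∀ (i : ℕ) {K K' : Type} [Field K] [Algebra Ω K] [Field K'] [Algebra Ω K'],
    (K →ₐ[Ω] K') → (H i K →ₗ[L] H i K')
  map_id : ∀ (i : ℕ) (K : Type) [Field K] [Algebra Ω K], map i (AlgHom.id Ω K) = LinearMap.id
  map_comp : ∀ (i : ℕ) {K K' K'' : Type} [Field K] [Algebra Ω K] [Field K'] [Algebra Ω K']
    [Field K''] [Algebra Ω K''] (g : K →ₐ[Ω] K') (h : K' →ₐ[Ω] K''),
    map i (h.comp g) = map i h ∘ₗ map i g
  /-- finiteness -/
  fin : ∀ (i : ℕ) (K : Type) [Field K] [Algebra Ω K], (⊤ : IntermediateField Ω K).FG →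
    FiniteDimensional L (H i K)
  /-- transfer -/
  inj : ∀ (i : ℕ) {K K' : Type} [Field K] [Algebra Ω K] [Field K'] [Algebra Ω K']
    (g : K →ₐ[Ω] K'), (∀ a : K', IsAlgebraic g.fieldRange a) → Function.Injective (map i g)
  /-- Galois descent -/
  descent : ∀ (i : ℕ) (K : Type) [Field K] [Algebra Ω K] (N : IntermediateField Ω K)
    [FiniteDimensional N K] [IsGalois N K] (z : H i K),
    (∀ τ : K →ₐ[N] K, map i (τ.restrictScalars Ω) z = z) → z ∈ LinearMap.range (map i N.val)
  /-- vanishing in degrees above the dimension, and in the degree of the dimension if the variety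
  is uniruled -/
  uniruled : ∀ (i : ℕ) (K : Type) [Field K] [Algebra Ω K], Uniruled Ω K i → ∀ z : H i K, z = 0
  /-- cup product -/
  cup : ∀ (K : Type) [Field K] [Algebra Ω K], H 2 K →ₗ[L] H 1 K →ₗ[L] H 3 K
  map_cup : ∀ {K K' : Type} [Field K] [Algebra Ω K] [Field K'] [Algebra Ω K'] (g : K →ₐ[Ω] K')
    (a : H 2 K) (b : H 1 K), map 3 g (cup K a b) = cup K' (map 2 g a) (map 1 g b)
  /-- Frobenius is semisimple on the first cohomology (Weil) -/
  weil : ∀ (K : Type) [Field K] [Algebra Ω K] (e : ℕ) (φ : K →ₐ[Ω] K),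
    (⊤ : IntermediateField Ω K).FG → IsFrob (p ^ e) φ → Module.End.IsSemisimple (map 1 φ)
  /-- The classes of `H 2 (surface) ⊗ H 1 (curve)` which vanish at the generic point of the product
  are supported on a divisor, whose components `D j` are defined over the field with `p ^ (e * m)`
  elements: they are the image of the first cohomology of the `D j` under the Gysin map `g`. -/
  gysin : ∀ {K C N : Type} [Field K] [Algebra Ω K] [Field C] [Algebra Ω C] [Field N]
    [Algebra Ω N] (a : K →ₐ[Ω] N) (b : C →ₐ[Ω] N) (x y : K) (v : C) (e : ℕ)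
    (φ : K →ₐ[Ω] K) (ψ : C →ₐ[Ω] C), (⊤ : IntermediateField Ω K).FG →
    (⊤ : IntermediateField Ω C).FG → (∀ k : K, k ∈ Acl Ω {x, y}) → (∀ k : C, k ∈ Acl Ω {v}) →
    Transcendental a.fieldRange (b v) → IsFrob (p ^ e) φ → IsFrob (p ^ e) ψ →
    ∃ (m r : ℕ) (D : Fin r → Type) (_ : ∀ j, Field (D j)) (_ : ∀ j, Algebra Ω (D j))
      (δ : ∀ j, D j →ₐ[Ω] D j) (g : (∀ j, H 1 (D j)) →ₗ[L] H 2 K ⊗[L] H 1 C),
      0 < m ∧ (∀ j, (⊤ : IntermediateField Ω (D j)).FG ∧ IsFrob (p ^ (e * m)) (δ j)) ∧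
      (∀ s, (TensorProduct.map (map 2 φ) (map 1 ψ) ^ m) (g s) =
        (p : L) ^ (e * m) • g fun j => map 1 (δ j) (s j)) ∧
      ∀ t, TensorProduct.lift ((cup N).compl₁₂ (map 2 a) (map 1 b)) t = 0 →
        t ∈ LinearMap.range g
  /-- the cohomology of the curve `u ^ n = v (1 - v)` as a representation of its group of
  automorphisms `u ↦ ζ u` -/
  curve : ∀ (C : Type) [Field C] [Algebra Ω C] (n : ℕ) (ζ : Ω) (v u : C) (σ : C →ₐ[Ω] C),
    (n : Ω) ≠ 0 → IsPrimitiveRoot ζ n → Transcendental Ω v → u ^ n = v * (1 - v) →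
    adjoin Ω {v, u} = ⊤ → σ v = v → σ u = algebraMap Ω C ζ * u →
    ∀ ξ : L, ξ ^ n = 1 → ξ ^ 2 ≠ 1 → ∃ z : H 1 C, z ≠ 0 ∧ map 1 σ z = ξ • z

attribute [instance] Theory.grp Theory.mdl

/-- `V` is the second cohomology of a smooth projective surface with function field `K` over the
field with `q` elements, `Fr` is Frobenius and `r` the restriction to the generic point: the kernel
of `r` is spanned by the classes of curves and has a complement, its orthogonal. -/
structure IsH2 {p : ℕ} {Ω L : Type} [Field Ω] [Field L] (T : Theory p Ω L) {K : Type} [Field K]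
    [Algebra Ω K] (q : ℕ) (φ : K →ₐ[Ω] K) {V : Type} [AddCommGroup V] [Module L V]
    (Fr : Module.End L V) (r : V →ₗ[L] T.H 2 K) : Prop where
  comm : ∀ v, r (Fr v) = T.map 2 φ (r v)
  classes : ∃ m : ℕ, 0 < m ∧ ∀ v, r v = 0 → (Fr ^ m) v = (q : L) ^ m • v
  compl : ∃ W : Submodule L V, (∀ v ∈ W, Fr v ∈ W) ∧ IsCompl (LinearMap.ker r) W

end Pool.Agent.Helper35.QC.New
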