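import Pool.Agent.Helper35.QC.Gysin
import Pool.Agent.Helper35.QC.DefsNew

/-! Project QC. The kernel of the cup product at the generic point of the product of a surface and a
curve is semisimple, from the Gysin maps and the theorem of Weil for the first cohomology. -/

set_option autoImplicit false

namespace Pool.Agent.Helper35.QC.New

open IntermediateField TensorProduct Module

/-- the generators of a field are algebraic over their `q`-th powers -/
theorem isFrob_algebraic {Ω K : Type} [Field Ω] [Field K] [Algebra Ω K] {q : ℕ} (hq : 0 < q)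
    {φ : K →ₐ[Ω] K} (h : IsFrob q φ) (a : K) : IsAlgebraic φ.fieldRange a := by
  have h1 : (⊤ : IntermediateField Ω K) ≤
      (algebraicClosure φ.fieldRange K).restrictScalars Ω := by
    rw [← h, adjoin_le_iff]
    intro b hb
    have hb' : φ b = b ^ q := hb
    have h2 : IsAlgebraic φ.fieldRange (b ^ q) := by
      rw [← hb']
      exact isAlgebraic_algebraMap (⟨φ b, ⟨b, rfl⟩⟩ : φ.fieldRange)
    have h3 : IsAlgebraic φ.fieldRange b := IsAlgebraic.of_pow hq h2
    rw [SetLike.mem_coe, mem_restrictScalars, mem_algebraicClosure_iff]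
    exact h3
  have h4 := h1 (mem_top (x := a))
  rw [mem_restrictScalars, mem_algebraicClosure_iff] at h4
  exact h4

theorem Theory.coniveau {p : ℕ} (hp : p ≠ 0) {Ω L : Type} [Field Ω] [Field L] [CharZero L]
    [IsAlgClosed L] (T : Theory p Ω L) {K C N : Type} [Field K] [Algebra Ω K] [Field C]
    [Algebra Ω C] [Field N]
    [Algebra Ω N] (a : K →ₐ[Ω] N) (b : C →ₐ[Ω] N) (x y : K) (v : C) (e : ℕ)
    (φ : K →ₐ[Ω] K) (ψ : C →ₐ[Ω] C) (hK : (⊤ : IntermediateField Ω K).FG)
    (hC : (⊤ : IntermediateField Ω C).FG) (hxy : ∀ k : K, k ∈ Acl Ω {x, y})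
    (hv : ∀ k : C, k ∈ Acl Ω {v})
    (htr : Transcendental a.fieldRange (b v)) (hφ : IsFrob (p ^ e) φ)
    (hψ : IsFrob (p ^ e) ψ) (P : Submodule L (T.H 2 K ⊗[L] T.H 1 C))
    (hP0 : ∀ t ∈ P, TensorProduct.lift ((T.cup N).compl₁₂ (T.map 2 a) (T.map 1 b)) t = 0)
    (hP : ∀ t ∈ P, TensorProduct.map (T.map 2 φ) (T.map 1 ψ) t ∈ P) :
    Module.End.IsSemisimple ((TensorProduct.map (T.map 2 φ) (T.map 1 ψ)).restrict hP) := by
  obtain ⟨m, r, D, _, _, δ, g, hm, hD, hg, hker⟩ :=
    T.gysin a b x y v e φ ψ hK hC hxy hv htr hφ hψ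
  have hq : 0 < p ^ e := pow_pos (Nat.pos_of_ne_zero hp) e
  have : ∀ j, FiniteDimensional L (T.H 1 (D j)) := fun j => T.fin 1 (D j) (hD j).1
  have i2 : Function.Injective (T.map 2 φ) := T.inj 2 φ (isFrob_algebraic hq hφ)
  have i1 : Function.Injective (T.map 1 ψ) := T.inj 1 ψ (isFrob_algebraic hq hψ)
  refine semisimple_of_gysin (TensorProduct.map (T.map 2 φ) (T.map 1 ψ)) ?_ (fun j => T.H 1 (D j))
    (fun j => T.map 1 (δ j)) (fun j => T.weil (D j) (e * m) (δ j) (hD j).1 (hD j).2) hm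
    (c := (p : L) ^ (e * m)) (pow_ne_zero _ (Nat.cast_ne_zero.2 hp)) g hg P hP
    (fun t ht => hker t (hP0 t ht))
  have h3 : TensorProduct.map (T.map 2 φ) (T.map 1 ψ) =
      (T.map 1 ψ).lTensor (T.H 2 K) ∘ₗ (T.map 2 φ).rTensor (T.H 1 C) := by
    rw [LinearMap.lTensor_comp_rTensor]
  rw [h3]
  exact (Module.Flat.lTensor_preserves_injective_linearMap _ i1).comp
    (Module.Flat.rTensor_preserves_injective_linearMap _ i2)

end Pool.Agent.Helper35.QC.New
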