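import Mathlib

/-! Project QC (MP_1fe969_ag). Semisimplicity on a space which is an image of spaces with semisimple
endomorphisms (Gysin maps), twisted by a constant and after passing to a power. -/

set_option autoImplicit false

namespace Pool.Agent.Helper35.QC

open Module Polynomial

variable {L : Type} [Field L]

theorem aeval_restrict_coe {E : Type} [AddCommGroup E] [Module L E] (A : End L E)
    (P : Submodule L E) (hP : ∀ t ∈ P, A t ∈ P) (p : L[X]) (t : P) :
    ((aeval (A.restrict hP) p t : P) : E) = aeval A p (t : E) := by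
  induction p using Polynomial.induction_on' with
  | add p q hp hq => simp [map_add, hp, hq]
  | monomial n a =>
    rw [aeval_monomial, aeval_monomial]
    have h : ∀ n : ℕ, ((((A.restrict hP) ^ n) t : P) : E) = (A ^ n) (t : E) := by
      intro n
      induction n with
      | zero => simp
      | succ n ih => rw [pow_succ', pow_succ', Module.End.mul_apply, Module.End.mul_apply, ← ih]; rfl
    simp [Algebra.algebraMap_eq_smul_one, h]

/-- a product of endomorphisms of spaces -/
def piEnd {J : Type} (H : J → Type) [∀ j, AddCommGroup (H j)] [∀ j, Module L (H j)]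
    (δ : ∀ j, End L (H j)) : End L (∀ j, H j) :=
  LinearMap.pi fun j => δ j ∘ₗ LinearMap.proj j

theorem aeval_piEnd {J : Type} (H : J → Type) [∀ j, AddCommGroup (H j)] [∀ j, Module L (H j)]
    (δ : ∀ j, End L (H j)) (p : L[X]) (s : ∀ j, H j) (j : J) :
    aeval (piEnd H δ) p s j = aeval (δ j) p (s j) := by
  induction p using Polynomial.induction_on' with
  | add p q hp hq => simp [map_add, hp, hq]
  | monomial n a =>
    rw [aeval_monomial, aeval_monomial]
    have h : ∀ n : ℕ, ((piEnd H δ) ^ n) s j = ((δ j) ^ n) (s j) := by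
      intro n
      induction n with
      | zero => simp
      | succ n ih =>
        rw [pow_succ', pow_succ', Module.End.mul_apply, Module.End.mul_apply, ← ih]
        rfl
    simp [Algebra.algebraMap_eq_smul_one, h]

/-- a semisimple endomorphism is killed by the product of the `X - a`, `a` in a finite set -/
theorem exists_roots [IsAlgClosed L] {V : Type} [AddCommGroup V] [Module L V]
    [FiniteDimensional L V] {f : End L V} (hf : f.IsSemisimple) :
    ∃ U : Finset L, ∀ U' : Finset L, U ⊆ U' → aeval f (∏ a ∈ U', (X - C a)) = 0 := by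
  classical
  have hsq : Squarefree (minpoly L f) := hf.minpoly_squarefree
  have hmon : (minpoly L f).Monic := minpoly.monic (Algebra.IsIntegral.isIntegral f)
  have hnodup : (minpoly L f).roots.Nodup := by
    have h1 : (minpoly L f).Separable := by
      rw [← PerfectField.separable_iff_squarefree] at hsq
      exact hsq
    exact nodup_roots h1
  refine ⟨(minpoly L f).roots.toFinset, fun U' hU' => ?_⟩
  have h2 : minpoly L f = ∏ a ∈ (minpoly L f).roots.toFinset, (X - C a) := by
    have h3 := (IsAlgClosed.splits (minpoly L f)).eq_prod_roots_of_monic hmon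
    rw [Finset.prod, Multiset.toFinset_val, Multiset.dedup_eq_self.2 hnodup]
    exact h3
  have h4 : minpoly L f ∣ ∏ a ∈ U', (X - C a) := by
    rw [h2]
    exact Finset.prod_dvd_prod_of_subset _ _ _ hU'
  obtain ⟨r, hr⟩ := h4
  rw [hr, map_mul, minpoly.aeval, zero_mul]

/-- **Semisimplicity by Gysin maps.** Let `A` be an injective endomorphism of `E` and `P` a stable
subspace, contained in the image of a product of finite dimensional spaces with semisimple
endomorphisms `δ j` under a linear map `g` with `A ^ m ∘ g = c g ∘ δ`, `m > 0`, `c ≠ 0`. Then `A` is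
semisimple on `P`. -/
theorem semisimple_of_gysin [CharZero L] [IsAlgClosed L] {E : Type} [AddCommGroup E] [Module L E]
    (A : End L E) (hA : Function.Injective A) {J : Type} [Finite J] (H : J → Type)
    [∀ j, AddCommGroup (H j)] [∀ j, Module L (H j)] [∀ j, FiniteDimensional L (H j)]
    (δ : ∀ j, End L (H j)) (hδ : ∀ j, (δ j).IsSemisimple) {m : ℕ} (hm : 0 < m) {c : L}
    (hc : c ≠ 0) (g : (∀ j, H j) →ₗ[L] E)
    (hg : ∀ s, (A ^ m) (g s) = c • g (fun j => δ j (s j))) (P : Submodule L E)
    (hP : ∀ t ∈ P, A t ∈ P) (hPg : P ≤ LinearMap.range g) :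
    End.IsSemisimple (A.restrict hP) := by
  classical
  have := Fintype.ofFinite J
  choose U hU using fun j => exists_roots (hδ j)
  set W : Finset L := Finset.univ.biUnion U with hW
  set D : End L (∀ j, H j) := piEnd H δ with hD
  have hDW : aeval D (∏ a ∈ W, (X - C a)) = 0 := by
    refine LinearMap.ext fun s => funext fun j => ?_
    rw [hD, aeval_piEnd, hU j W (Finset.subset_biUnion_of_mem U (Finset.mem_univ j))]
    rfl
  -- the polynomial `∏ (X - c a)` kills `A ^ m` on the image of `g`
  have hgp : ∀ (p : L[X]) (s : ∀ j, H j), aeval (A ^ m) p (g s) = g (aeval (c • D) p s) := by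
    intro p s
    induction p using Polynomial.induction_on' with
    | add p q hp hq => simp [map_add, hp, hq]
    | monomial n a =>
      rw [aeval_monomial, aeval_monomial]
      have h : ∀ n : ℕ, ((A ^ m) ^ n) (g s) = g (((c • D) ^ n) s) := by
        intro n
        induction n with
        | zero => simp
        | succ n ih =>
          rw [pow_succ', pow_succ', Module.End.mul_apply, Module.End.mul_apply, ih, hg,
            LinearMap.smul_apply, map_smul]
          rfl
      simp [Algebra.algebraMap_eq_smul_one, h]
  have hkill : ∀ t ∈ LinearMap.range g, aeval A (∏ a ∈ W, (X ^ m - C (c * a))) t = 0 := by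
    rintro _ ⟨s, rfl⟩
    have h1 : (∏ a ∈ W, (X ^ m - C (c * a)) : L[X]) =
        (∏ a ∈ W, (X - C (c * a))).comp (X ^ m) := by
      rw [Polynomial.prod_comp]
      refine Finset.prod_congr rfl fun a _ => ?_
      simp
    rw [h1, aeval_comp, map_pow, aeval_X, hgp]
    have h2 : aeval (c • D) (∏ a ∈ W, (X - C (c * a))) = 0 := by
      have h3 : c • D = aeval D (C c * X) := by
        rw [map_mul, aeval_C, aeval_X, Algebra.algebraMap_eq_smul_one, smul_mul_assoc, one_mul]
      have h4 : (∏ a ∈ W, (X - C (c * a)) : L[X]).comp (C c * X) =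
          C c ^ W.card * ∏ a ∈ W, (X - C a) := by
        rw [Polynomial.prod_comp, ← Finset.prod_const, ← Finset.prod_mul_distrib]
        refine Finset.prod_congr rfl fun a _ => ?_
        rw [sub_comp, X_comp, C_comp, C_mul]
        ring
      rw [h3, ← aeval_comp, h4, map_mul, hDW, mul_zero]
    rw [h2, LinearMap.zero_apply, map_zero]
  -- the powers of `A` are injective
  have hAm : Function.Injective (A ^ m) := by
    rw [Module.End.coe_pow]
    exact hA.iterate m
  -- the nonzero values
  set W' : Finset L := W.erase 0 with hW'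
  have hkill' : ∀ t ∈ LinearMap.range g, aeval A (∏ a ∈ W', (X ^ m - C (c * a))) t = 0 := by
    intro t ht
    have h1 := hkill t ht
    by_cases h0 : (0 : L) ∈ W
    · rw [← Finset.mul_prod_erase W _ h0, mul_zero, C_0, sub_zero, map_mul, Module.End.mul_apply,
        map_pow, aeval_X] at h1
      exact hAm (by rw [h1, map_zero])
    · rwa [hW', Finset.erase_eq_of_notMem h0]
  have hm0 : (m : L) ≠ 0 := Nat.cast_ne_zero.2 hm.ne'
  have hsep : (∏ a ∈ W', (X ^ m - C (c * a)) : L[X]).Separable := by
    refine separable_prod' (fun a _ b _ hab => ?_) fun a ha => ?_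
    · refine ⟨C (c * b - c * a)⁻¹, -C (c * b - c * a)⁻¹, ?_⟩
      have h1 : c * b - c * a ≠ 0 := by
        rw [← mul_sub]
        exact mul_ne_zero hc (sub_ne_zero.2 hab.symm)
      have h2 : (C (c * b - c * a)⁻¹ * (X ^ m - C (c * a)) +
          -C (c * b - c * a)⁻¹ * (X ^ m - C (c * b)) : L[X]) =
          C ((c * b - c * a)⁻¹ * (c * b - c * a)) := by
        have h3 : (C ((c * b - c * a)⁻¹ * (c * b - c * a)) : L[X]) =
            C (c * b - c * a)⁻¹ * (C (c * b) - C (c * a)) := by
          rw [← C_sub, ← C_mul]
        rw [h3]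
        ring
      rw [h2, inv_mul_cancel₀ h1, C_1]
    · exact separable_X_pow_sub_C _ hm0 (mul_ne_zero hc (Finset.ne_of_mem_erase ha))
  refine Module.End.isSemisimple_of_squarefree_aeval_eq_zero hsep.squarefree ?_
  refine LinearMap.ext fun t => Subtype.ext ?_
  rw [aeval_restrict_coe, hkill' _ (hPg t.2)]
  rfl

end Pool.Agent.Helper35.QC
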